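import Pool.Agent.W8.ST.Stm

/-!
Project ST, part Deck: the elements of the deck transformation groups.
-/

namespace Pool.Agent.W889.ST

open Pool.Agent.W8.ST

theorem sgn (n : ℤ) : ∃ s : ℤ, (s : ℝ) = (-1 : ℝ) ^ n ∧ (-1 : ℝ) ^ (-n) = (-1 : ℝ) ^ n ∧
    ((-1 : ℝ) ^ n) * ((-1 : ℝ) ^ n) = 1 := by
  rcases Int.even_or_odd n with h | h
  · refine ⟨1, ?_, ?_, ?_⟩
    · rw [h.neg_one_zpow]; norm_num
    · rw [h.neg.neg_one_zpow, h.neg_one_zpow]
    · rw [h.neg_one_zpow]; norm_num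
  · refine ⟨-1, ?_, ?_, ?_⟩
    · rw [h.neg_one_zpow]; norm_num
    · rw [h.neg.neg_one_zpow, h.neg_one_zpow]
    · rw [h.neg_one_zpow]; norm_num

theorem comp1 (m n k m' n' k' : ℤ) : ∃ a b c : ℤ, ∀ x, gam1 m n k (gam1 m' n' k' x) =
    gam1 a b c x := by
  obtain ⟨s, hs, -, -⟩ := sgn n
  refine ⟨m + s * m', n + n', k + s * k', fun x => ?_⟩
  have h0 : (-1 : ℝ) ^ (n + n') = (-1 : ℝ) ^ n * (-1 : ℝ) ^ n' := zpow_add₀ (by norm_num) n n'
  ext i
  fin_cases i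
  · simp [gam1]
  · simp [gam1, h0, hs]; ring
  · simp [gam1]; ring
  · simp [gam1, h0, hs]; ring

theorem comp2 (m n k m' n' k' : ℤ) : ∃ a b c : ℤ, ∀ x, gam2 m n k (gam2 m' n' k' x) =
    gam2 a b c x := by
  obtain ⟨s, hs, -, -⟩ := sgn n
  refine ⟨m + s * m', n + n', k + s * k', fun x => ?_⟩
  have h0 : (-1 : ℝ) ^ (n + n') = (-1 : ℝ) ^ n * (-1 : ℝ) ^ n' := zpow_add₀ (by norm_num) n n'
  ext i
  fin_cases i
  · simp [gam2]
  · simp [gam2]; ring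
  · simp [gam2, h0, hs]; ring
  · simp [gam2, h0, hs]; ring

theorem one1 : ∀ x, gam1 0 0 0 x = x := by
  intro x
  ext i
  fin_cases i <;> simp [gam1]

theorem one2 : ∀ x, gam2 0 0 0 x = x := by
  intro x
  ext i
  fin_cases i <;> simp [gam2]

theorem inv1 (m n k : ℤ) : ∃ a b c : ℤ, (∀ x, gam1 m n k (gam1 a b c x) = x) ∧
    ∀ x, gam1 a b c (gam1 m n k x) = x := by
  obtain ⟨s, hs, h1, h2⟩ := sgn n
  refine ⟨-(s * m), -n, -(s * k), fun x => ?_, fun x => ?_⟩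
  · ext i
    fin_cases i
    · simp [gam1]
    · show (-1 : ℝ) ^ n * ((-1 : ℝ) ^ (-n) * x 1 + 2 * Real.pi * ((-(s * m) : ℤ) : ℝ)) +
        2 * Real.pi * m = x 1
      push_cast
      rw [h1, hs]
      linear_combination (x 1 - 2 * Real.pi * m) * h2
    · show x 2 + Real.pi * ((-n : ℤ) : ℝ) + Real.pi * n = x 2
      push_cast; ring
    · show (-1 : ℝ) ^ n * ((-1 : ℝ) ^ (-n) * x 3 + 2 * Real.pi * ((-(s * k) : ℤ) : ℝ)) +
        2 * Real.pi * k = x 3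
      push_cast
      rw [h1, hs]
      linear_combination (x 3 - 2 * Real.pi * k) * h2
  · ext i
    fin_cases i
    · simp [gam1]
    · show (-1 : ℝ) ^ (-n) * ((-1 : ℝ) ^ n * x 1 + 2 * Real.pi * m) +
        2 * Real.pi * ((-(s * m) : ℤ) : ℝ) = x 1
      push_cast
      rw [h1, hs]
      linear_combination (x 1) * h2
    · show x 2 + Real.pi * n + Real.pi * ((-n : ℤ) : ℝ) = x 2
      push_cast; ring
    · show (-1 : ℝ) ^ (-n) * ((-1 : ℝ) ^ n * x 3 + 2 * Real.pi * k) +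
        2 * Real.pi * ((-(s * k) : ℤ) : ℝ) = x 3
      push_cast
      rw [h1, hs]
      linear_combination (x 3) * h2

theorem inv2 (m n k : ℤ) : ∃ a b c : ℤ, (∀ x, gam2 m n k (gam2 a b c x) = x) ∧
    ∀ x, gam2 a b c (gam2 m n k x) = x := by
  obtain ⟨s, hs, h1, h2⟩ := sgn n
  refine ⟨-(s * m), -n, -(s * k), fun x => ?_, fun x => ?_⟩
  · ext i
    fin_cases i
    · simp [gam2]
    · show x 1 + Real.pi * ((-n : ℤ) : ℝ) + Real.pi * n = x 1
      push_cast; ring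
    · show (-1 : ℝ) ^ n * ((-1 : ℝ) ^ (-n) * x 2 + 2 * Real.pi * ((-(s * m) : ℤ) : ℝ)) +
        2 * Real.pi * m = x 2
      push_cast
      rw [h1, hs]
      linear_combination (x 2 - 2 * Real.pi * m) * h2
    · show (-1 : ℝ) ^ n * ((-1 : ℝ) ^ (-n) * x 3 + 2 * Real.pi * ((-(s * k) : ℤ) : ℝ)) +
        2 * Real.pi * k = x 3
      push_cast
      rw [h1, hs]
      linear_combination (x 3 - 2 * Real.pi * k) * h2
  · ext i
    fin_cases i
    · simp [gam2]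
    · show x 1 + Real.pi * n + Real.pi * ((-n : ℤ) : ℝ) = x 1
      push_cast; ring
    · show (-1 : ℝ) ^ (-n) * ((-1 : ℝ) ^ n * x 2 + 2 * Real.pi * m) +
        2 * Real.pi * ((-(s * m) : ℤ) : ℝ) = x 2
      push_cast
      rw [h1, hs]
      linear_combination (x 2) * h2
    · show (-1 : ℝ) ^ (-n) * ((-1 : ℝ) ^ n * x 3 + 2 * Real.pi * k) +
        2 * Real.pi * ((-(s * k) : ℤ) : ℝ) = x 3
      push_cast
      rw [h1, hs]
      linear_combination (x 3) * h2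

/-- general fact -/
theorem gen (g : ℤ → ℤ → ℤ → V 4 → V 4)
    (hc : ∀ m n k m' n' k' : ℤ, ∃ a b c : ℤ, ∀ x, g m n k (g m' n' k' x) = g a b c x)
    (h1 : ∀ x, g 0 0 0 x = x)
    (hi : ∀ m n k : ℤ, ∃ a b c : ℤ, (∀ x, g m n k (g a b c x) = x) ∧
      ∀ x, g a b c (g m n k x) = x) :
    (∀ γ ∈ Subgroup.closure {e : Equiv.Perm (V 4) | ∃ m n k : ℤ, ∀ x, e x = g m n k x},
      ∃ m n k : ℤ, ∀ x, γ x = g m n k x) ∧
    (∀ m n k : ℤ, ∃ γ ∈ Subgroup.closure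
      {e : Equiv.Perm (V 4) | ∃ m n k : ℤ, ∀ x, e x = g m n k x}, ∀ x, γ x = g m n k x) := by
  constructor
  · intro γ hγ
    induction hγ using Subgroup.closure_induction with
    | mem x hx => exact hx
    | one => exact ⟨0, 0, 0, fun x => (h1 x).symm⟩
    | mul x y _ _ hx hy =>
      obtain ⟨m, n, k, h⟩ := hx
      obtain ⟨m', n', k', h'⟩ := hy
      obtain ⟨a, b, c, habc⟩ := hc m n k m' n' k'
      refine ⟨a, b, c, fun z => ?_⟩
      rw [Equiv.Perm.mul_apply, h', h, habc]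
    | inv x _ hx =>
      obtain ⟨m, n, k, h⟩ := hx
      obtain ⟨a, b, c, h2, -⟩ := hi m n k
      refine ⟨a, b, c, fun z => ?_⟩
      rw [Equiv.Perm.inv_eq_iff_eq, h, h2]
  · intro m n k
    obtain ⟨a, b, c, h2, h3⟩ := hi m n k
    refine ⟨⟨g m n k, g a b c, h3, h2⟩, Subgroup.subset_closure ⟨m, n, k, fun x => rfl⟩,
      fun x => rfl⟩

theorem Deck_proof : Deck := by
  obtain ⟨a, b⟩ := gen gam1 comp1 one1 inv1
  obtain ⟨c, d⟩ := gen gam2 comp2 one2 inv2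
  exact ⟨a, b, c, d⟩

end Pool.Agent.W889.ST
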